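import Pool.Agent.Y916.Kz.Sys
import Pool.Agent.Y916.Sl.Many

/-!
# The values of the hyperlogarithms at almost all tuples of algebraic points
-/

set_option autoImplicit false

open Module PowerSeries Pool.Agent.Y119.ML Pool.Agent.Y916.Al Pool.Agent.Y916.Af Pool.Agent.Y916.Om

namespace Pool.Agent.Y916.Kz

theorem free_ge {r : ℕ} (h : Fin r → ℚ⟦X⟧) (I₀ : Finset (Fin r))
    (hI₀ : AlgebraicIndependent (Polynomial ℚ) (fun i : I₀ => h i)) : ∃ I : Finset (Fin r), I₀ ⊆ I ∧ Free h I := by
  classical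
  let P : Finset (Fin r) → Prop := fun I => I₀ ⊆ I ∧ AlgebraicIndependent (Polynomial ℚ) (fun i : I => h i)
  obtain ⟨I, hI, hmax⟩ := Finset.exists_max_image (Finset.univ.filter P) Finset.card
    ⟨I₀, Finset.mem_filter.2 ⟨Finset.mem_univ _, Finset.Subset.refl _, hI₀⟩⟩
  rw [Finset.mem_filter] at hI
  refine ⟨I, hI.2.1, hI.2.2, fun s hs hind => ?_⟩
  have h1 : P (insert s I) := by
    refine ⟨hI.2.1.trans (Finset.subset_insert s I), ?_⟩
    let φ : ↥(insert s I) → Option I := fun i => if h : (i : Fin r) ∈ I then some ⟨i, h⟩ else none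
    have hφ : Function.Injective φ := by
      intro a b hab
      simp only [φ] at hab
      have ha := Finset.mem_insert.1 a.2
      have hb := Finset.mem_insert.1 b.2
      by_cases h1 : (a : Fin r) ∈ I <;> by_cases h2 : (b : Fin r) ∈ I
      · rw [dif_pos h1, dif_pos h2, Option.some_inj, Subtype.mk.injEq] at hab
        exact Subtype.ext hab
      · rw [dif_pos h1, dif_neg h2] at hab
        exact absurd hab (by simp)
      · rw [dif_neg h1, dif_pos h2] at hab
        exact absurd hab (by simp)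
      · exact Subtype.ext ((ha.resolve_right h1).trans (hb.resolve_right h2).symm)
    have h2 := hind.comp φ hφ
    have h3 : (fun o : Option I => o.elim (h s) fun i => h i) ∘ φ = fun i : ↥(insert s I) => h i := by
      funext i
      simp only [φ, Function.comp_apply]
      by_cases h4 : (i : Fin r) ∈ I
      · rw [dif_pos h4]
        rfl
      · rw [dif_neg h4]
        have := (Finset.mem_insert.1 i.2).resolve_right h4
        show h s = h i
        rw [this]
    rw [h3] at h2
    exact h2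
  have h2 := hmax (insert s I) (Finset.mem_filter.2 ⟨Finset.mem_univ _, h1⟩)
  rw [Finset.card_insert_of_notMem hs] at h2
  omega

theorem rel_rename {σ τ : Type} {δ : ℕ} {V : Submodule ℚ ℂ} (φ : σ → τ) (hφ : Function.Injective φ) (x : τ → ℂ)
    (h : Rel δ V (fun s => x (φ s))) : Rel δ V x := by
  obtain ⟨P, hP0, hPd, hPc, hPv⟩ := h
  refine ⟨MvPolynomial.rename φ P, ?_, (MvPolynomial.totalDegree_rename_le _ _).trans hPd, ?_, ?_⟩
  · intro h0
    exact hP0 (MvPolynomial.rename_injective φ hφ (by rw [h0, map_zero]))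
  · intro t
    by_cases ht : ∃ y, Finsupp.mapDomain φ y = t
    · obtain ⟨y, rfl⟩ := ht
      rw [MvPolynomial.coeff_rename_mapDomain φ hφ]
      exact hPc y
    · rw [MvPolynomial.coeff_rename_eq_zero φ P t (fun y hy => absurd ⟨y, hy⟩ ht)]
      exact Submodule.zero_mem _
  · rw [MvPolynomial.aeval_rename, ← hPv]
    rfl

variable {r : ℕ} (α : Fin r → ℤ)

/-- the numbers `log x`, `HL_w(1/x)`, `w` in `I` -/
noncomputable def val {W : ℕ} (I : Finset (WI r W)) (x : ℂ) (o : Option I) : ℂ :=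
  o.elim (Complex.log x) fun i => evc (1 / x) (LL α 0 i.1.1)

theorem tup {W : ℕ} (I : Finset (WI r W)) (hI : AlgebraicIndependent (Polynomial ℚ) (fun i : I => LL α 0 i.1.1))
    (k m δ d D : ℕ) :
    ∃ c : ℝ, 0 < c ∧ ∃ C : ℝ, 0 ≤ C ∧ ∀ V : Submodule ℚ ℂ, Module.Finite ℚ V → finrank ℚ V ≤ D → ∀ T : ℕ, 1 ≤ T →
      {x : Fin k → ℂ | (∀ i, Sl.AInt m T (x i)) ∧ RelL δ d V (fun p : Fin k × Option I => val α I (x p.1) p.2)}.Finite ∧
      ({x : Fin k → ℂ | (∀ i, Sl.AInt m T (x i)) ∧
        RelL δ d V (fun p : Fin k × Option I => val α I (x p.1) p.2)}.ncard : ℝ) ≤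
        C * (T : ℝ) ^ (((k * Sl.Mm m : ℕ) : ℝ) - c) := by
  classical
  set N := Fintype.card (WI r W) with hN
  let e : Fin N ≃ WI r W := (Fintype.equivFin _).symm
  set h : Fin N → ℚ⟦X⟧ := fun i => LL α 0 (e i).1 with hh
  obtain ⟨G, hG1, hval⟩ := nrh α W N e
  set I₀ : Finset (Fin N) := I.map e.symm.toEmbedding with hI₀
  have hind : AlgebraicIndependent (Polynomial ℚ) (fun i : I₀ => h i) := by
    let ψ : I₀ → I := fun i => ⟨e i.1, by
      obtain ⟨j, hj, hj2⟩ := Finset.mem_map.1 i.2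
      rw [← hj2]
      simpa using hj⟩
    have hψ : Function.Injective ψ := by
      intro a b hab
      have : e a.1 = e b.1 := congrArg Subtype.val hab
      exact Subtype.ext (e.injective this)
    exact hI.comp ψ hψ
  obtain ⟨J, hIJ, hJ⟩ := free_ge h I₀ hind
  have hval := hval G le_rfl J hJ
  set δ' := d ^ d * (δ + 1) with hδ'
  obtain ⟨c, hc, C, hC, hT⟩ := tuplesG hG1 hval m δ' k ((D + 1) ^ δ')
  refine ⟨c, hc, C, hC, fun V hV hVD T hT1 => ?_⟩
  have hone : Module.Finite ℚ (1 : Submodule ℚ ℂ) := by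
    rw [Submodule.one_eq_span]
    exact Module.Finite.span_of_finite ℚ (Set.finite_singleton _)
  have hone1 : finrank ℚ (1 : Submodule ℚ ℂ) ≤ 1 := by
    rw [Submodule.one_eq_span]
    exact (finrank_span_le_card ({1} : Set ℂ)).trans (by simp)
  have hW : finrank ℚ ↥(V ⊔ 1) ≤ D + 1 :=
    (Submodule.finrank_add_le_finrank_add_finrank V 1).trans (add_le_add hVD hone1)
  obtain ⟨h1, h2⟩ := finrank_pow_le (V ⊔ 1) δ'
  have h3 := hT ((V ⊔ 1) ^ δ') h1 (h2.trans (Nat.pow_le_pow_left hW _)) T hT1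
  have hsub : {x : Fin k → ℂ | (∀ i, Sl.AInt m T (x i)) ∧ RelL δ d V (fun p : Fin k × Option I => val α I (x p.1) p.2)} ⊆
      (((Fintype.piFinset fun _ : Fin k => Sl.NF m T).filter fun x =>
        Rel δ' ((V ⊔ 1) ^ δ') (fun p : Fin k × Option J => xc h (x p.1) (p.2.map Subtype.val)) :
          Finset (Fin k → ℂ)) : Set (Fin k → ℂ)) := by
    rintro x ⟨hx, hrel⟩
    rw [Finset.mem_coe, Finset.mem_filter, Fintype.mem_piFinset]
    refine ⟨fun i => Sl.mem_NF.2 (hx i), ?_⟩
    have hrel' := hrel.rel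
    let θ : Option I → Option J := fun o => o.map fun i => ⟨e.symm i.1, hIJ (Finset.mem_map_of_mem _ i.2)⟩
    have hθ : Function.Injective θ := by
      refine Option.map_injective fun a b hab => ?_
      have : e.symm a.1 = e.symm b.1 := congrArg Subtype.val hab
      exact Subtype.ext (e.symm.injective this)
    refine rel_rename (fun p : Fin k × Option I => (p.1, θ p.2)) (fun a b hab => ?_) _ ?_
    · simp only [Prod.mk.injEq] at hab
      exact Prod.ext hab.1 (hθ hab.2)
    · convert hrel' using 1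
      funext p
      obtain ⟨i, o⟩ := p
      cases o with
      | none => rfl
      | some j =>
        show evc (1 / x i) (LL α 0 (e (e.symm j.1)).1) = evc (1 / x i) (LL α 0 j.1.1)
        rw [Equiv.apply_symm_apply]
  refine ⟨(Finset.finite_toSet _).subset hsub, le_trans ?_ h3⟩
  have h4 := Set.ncard_le_ncard hsub (Finset.finite_toSet _)
  rw [Set.ncard_coe_finset] at h4
  exact_mod_cast h4

end Pool.Agent.Y916.Kz
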