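import Pool.Agent.Y916.Kz.Sol
import Pool.Agent.Y120.H.Fml
import Pool.Agent.Y119.ML.Fam2

/-!
# The fundamental matrix of the system of the hyperlogarithms at `0`
-/

set_option autoImplicit false

open PowerSeries Pool.Agent.Y119.ML Pool.Agent.Y120.GH

namespace Pool.Agent.Y916.Kz

variable {r : ℕ} (α : Fin r → ℤ)

/-- the form attached to a letter, as a complex power series -/
noncomputable def UC : Option (Fin r) → PowerSeries ℂ
  | none => 1
  | some a => X * PowerSeries.mk fun m => (α a : ℂ) ^ m

/-- the regularised hyperlogarithms as polynomials in the logarithm -/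
noncomputable def RW : List (Option (Fin r)) → Polynomial (PowerSeries ℂ)
  | [] => 1
  | o :: v => sol (Polynomial.C (UC α o) * RW v)

theorem bdd_UC (o : Option (Fin r)) : Bdd (UC α o) := by
  cases o with
  | none =>
    have := Bdd.C 1
    rwa [map_one] at this
  | some a =>
    refine Bdd.mul ⟨1, le_rfl, fun m => ?_⟩ ⟨1 + ‖(α a : ℂ)‖, by linarith [norm_nonneg (α a : ℂ)], fun m => ?_⟩
    · rw [PowerSeries.coeff_X]
      split_ifs <;> simp
    · rw [coeff_mk, norm_pow]
      have h0 := norm_nonneg (α a : ℂ)
      calc ‖(α a : ℂ)‖ ^ m ≤ (1 + ‖(α a : ℂ)‖) ^ m := pow_le_pow_left₀ h0 (by linarith) _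
        _ ≤ (1 + ‖(α a : ℂ)‖) ^ (m + 1) := pow_le_pow_right₀ (by linarith) (by omega)

theorem bdd_CU (o : Option (Fin r)) {f : Polynomial (PowerSeries ℂ)} (h : ∀ k, Bdd (f.coeff k)) (k : ℕ) :
    Bdd ((Polynomial.C (UC α o) * f).coeff k) := by
  rw [Polynomial.coeff_C_mul]
  exact (bdd_UC α o).mul (h k)

theorem bdd_RW (v : List (Option (Fin r))) : ∀ k, Bdd ((RW α v).coeff k) := by
  induction v with
  | nil =>
    intro k
    rw [RW, Polynomial.coeff_one]
    split_ifs
    · have := Bdd.C 1
      rwa [map_one] at this
    · exact Bdd.zero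
  | cons o v ih => exact (sol_spec (bdd_CU α o ih)).1

theorem th_RW (o : Option (Fin r)) (v : List (Option (Fin r))) (k : ℕ) :
    X * PowerSeries.derivative ℂ ((RW α (o :: v)).coeff k) + ((k : PowerSeries ℂ) + 1) * (RW α (o :: v)).coeff (k + 1) =
      UC α o * (RW α v).coeff k := by
  rw [RW, (sol_spec (bdd_CU α o (bdd_RW α v))).2.1 k, Polynomial.coeff_C_mul]

theorem c0_RW (o : Option (Fin r)) (v : List (Option (Fin r))) : coeff 0 ((RW α (o :: v)).coeff 0) = 0 :=
  (sol_spec (bdd_CU α o (bdd_RW α v))).2.2

/-- the matrix of the system -/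
noncomputable def AA {W : ℕ} (w w' : WI r W) : Polynomial ℤ := ∑ o, if w.1 = o :: w'.1 then RR α 0 o else 0

/-- integer polynomials as complex power series -/
noncomputable def ic (P : Polynomial ℤ) : PowerSeries ℂ := ((P.map (Int.castRingHom ℂ) : Polynomial ℂ) : PowerSeries ℂ)

theorem ic_mul (P Q : Polynomial ℤ) : ic (P * Q) = ic P * ic Q := by
  rw [ic, ic, ic, Polynomial.map_mul, Polynomial.coe_mul]

theorem ic_X : ic Polynomial.X = X := by
  rw [ic, Polynomial.map_X, Polynomial.coe_X]

theorem ic_zero : ic 0 = 0 := by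
  rw [ic, Polynomial.map_zero, Polynomial.coe_zero]

theorem TG_UC (o : Option (Fin r)) : ic (TG α 0) * UC α o = X * ic (RR α 0 o) := by
  have h0 : TG α 0 = Polynomial.X * ∏ a, (1 - Polynomial.C (α a) * Polynomial.X) := by
    rw [TG]
    simp
  cases o with
  | none =>
    have h1 : RR α 0 none = ∏ a, (1 - Polynomial.C (α a) * Polynomial.X) := by
      rw [RR]
      simp
    rw [h0, h1, ic_mul, ic_X, UC, mul_one]
  | some a =>
    have h1 : RR α 0 (some a) = Polynomial.X * ∏ b ∈ Finset.univ.erase a, (1 - Polynomial.C (α b) * Polynomial.X) := by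
      rw [RR]
      simp
    have h2 : ic (1 - Polynomial.C (α a) * Polynomial.X) * PowerSeries.mk (fun m => (α a : ℂ) ^ m) = 1 := by
      have h3 : ic (1 - Polynomial.C (α a) * Polynomial.X) = 1 - PowerSeries.C (α a : ℂ) * X := by
        rw [ic, Polynomial.map_sub, Polynomial.map_one, Polynomial.map_mul, Polynomial.map_X, Polynomial.map_C,
          Polynomial.coe_sub, Polynomial.coe_one, Polynomial.coe_mul, Polynomial.coe_X, Polynomial.coe_C]
        rfl
      rw [h3]
      ext m
      rw [sub_mul, one_mul, map_sub, coeff_mk, mul_assoc, coeff_C_mul, coeff_one]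
      cases m with
      | zero => simp
      | succ m =>
        rw [mul_comm X, coeff_succ_mul_X, coeff_mk, if_neg (by omega), pow_succ]
        ring
    rw [h0, h1, ← Finset.mul_prod_erase Finset.univ _ (Finset.mem_univ a), ic_mul, ic_mul, ic_mul, ic_X, UC]
    linear_combination (X * X * ic (∏ b ∈ Finset.univ.erase a, (1 - Polynomial.C (α b) * Polynomial.X))) * h2

/-- the prefix -/
noncomputable def pre (w w' : List (Option (Fin r))) : Option (List (Option (Fin r))) :=
  if w.drop (w.length - w'.length) = w' ∧ w'.length ≤ w.length then some (w.take (w.length - w'.length)) else none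

theorem pre_append (u w' : List (Option (Fin r))) : pre (u ++ w') w' = some u := by
  rw [pre, if_pos]
  · simp
  · simp

theorem pre_none {w w' : List (Option (Fin r))} (h : ∀ u, w ≠ u ++ w') : pre w w' = none := by
  rw [pre, if_neg]
  rintro ⟨h1, h2⟩
  apply h (w.take (w.length - w'.length))
  conv_lhs => rw [← List.take_append_drop (w.length - w'.length) w]
  rw [h1]

/-- the entries of the fundamental matrix -/
noncomputable def FM (w w' : List (Option (Fin r))) : Polynomial (PowerSeries ℂ) := (pre w w').elim 0 (RW α)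

theorem FM_append (u w' : List (Option (Fin r))) : FM α (u ++ w') w' = RW α u := by
  rw [FM, pre_append]
  rfl

theorem FM_none {w w' : List (Option (Fin r))} (h : ∀ u, w ≠ u ++ w') : FM α w w' = 0 := by
  rw [FM, pre_none h]
  rfl

theorem th_FM (w w' : List (Option (Fin r))) (k : ℕ) :
    ic (TG α 0) * (X * PowerSeries.derivative ℂ ((FM α w w').coeff k) + ((k : PowerSeries ℂ) + 1) * (FM α w w').coeff (k + 1)) =
      match w with
      | [] => 0
      | o :: v => X * ic (RR α 0 o) * (FM α v w').coeff k := by
  have h1 : ∀ k, ((1 : Polynomial (PowerSeries ℂ)).coeff (k + 1)) = 0 := fun k => by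
    rw [Polynomial.coeff_one, if_neg (Nat.succ_ne_zero k)]
  have h2 : ∀ k, PowerSeries.derivative ℂ ((1 : Polynomial (PowerSeries ℂ)).coeff k) = 0 := fun k => by
    rw [Polynomial.coeff_one]
    split_ifs <;> simp
  cases w with
  | nil =>
    by_cases h : w' = []
    · subst h
      have h3 : FM α [] [] = 1 := FM_append α [] []
      rw [h3, h1, h2]
      ring
    · have h3 : FM α [] w' = 0 := FM_none α (by
        intro u hu
        exact h (List.append_eq_nil_iff.1 hu.symm).2)
      rw [h3]
      simp
  | cons o v =>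
    show _ = X * ic (RR α 0 o) * (FM α v w').coeff k
    by_cases hv : ∃ u, v = u ++ w'
    · obtain ⟨u, rfl⟩ := hv
      rw [FM_append, ← List.cons_append, FM_append, th_RW, ← TG_UC]
      ring
    · push Not at hv
      rw [FM_none α hv, Polynomial.coeff_zero, mul_zero]
      by_cases h : o :: v = w'
      · have h3 : FM α (o :: v) w' = 1 := by
          rw [← h]
          exact FM_append α [] (o :: v)
        rw [h3, h1, h2]
        ring
      · have h3 : FM α (o :: v) w' = 0 := FM_none α (by
          intro u hu
          cases u with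
          | nil => exact h hu
          | cons a u =>
            rw [List.cons_append, List.cons.injEq] at hu
            exact hv u hu.2)
        rw [h3]
        simp

end Pool.Agent.Y916.Kz
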