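import Pool.Agent.Y916.Kz.Qu

/-!
# The system of the hyperlogarithms is quasi-unipotent at `0`
-/

set_option autoImplicit false

open PowerSeries Pool.Agent.Y119.ML Pool.Agent.Y120.GH

namespace Pool.Agent.Y916.Kz

variable {r : ℕ} (α : Fin r → ℤ)

theorem unif {f : Polynomial (PowerSeries ℂ)} (h : ∀ k, Bdd (f.coeff k)) : ∃ K : ℝ, 1 ≤ K ∧
    ∀ k m, ‖coeff m (f.coeff k)‖ ≤ K ^ (m + 1) := by
  choose K hK1 hK2 using h
  have hK0 : ∀ k, 0 ≤ K k := fun k => by linarith [hK1 k]
  refine ⟨1 + ∑ k ∈ Finset.range (f.natDegree + 1), K k, by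
    have := Finset.sum_nonneg fun k (_ : k ∈ Finset.range (f.natDegree + 1)) => hK0 k
    linarith, fun k m => ?_⟩
  by_cases hk : k ∈ Finset.range (f.natDegree + 1)
  · refine (hK2 k m).trans (pow_le_pow_left₀ (hK0 k) ?_ _)
    have := Finset.single_le_sum (fun k _ => hK0 k) hk
    linarith
  · rw [Finset.mem_range] at hk
    rw [Polynomial.coeff_eq_zero_of_natDegree_lt (by omega), map_zero, norm_zero]
    have := Finset.sum_nonneg fun k (_ : k ∈ Finset.range (f.natDegree + 1)) => hK0 k
    positivity

theorem bdd_FM (w w' : List (Option (Fin r))) (k : ℕ) : Bdd ((FM α w w').coeff k) := by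
  by_cases h : ∃ u, w = u ++ w'
  · obtain ⟨u, rfl⟩ := h
    rw [FM_append]
    exact bdd_RW α u k
  · push Not at h
    rw [FM_none α h, Polynomial.coeff_zero]
    exact Bdd.zero

/-- evaluation at `log = 0`, `x = 0` -/
noncomputable def ev0 : Polynomial (PowerSeries ℂ) →+* ℂ :=
  (PowerSeries.constantCoeff (R := ℂ)).comp (Polynomial.evalRingHom 0)

theorem ev0_eq (f : Polynomial (PowerSeries ℂ)) : ev0 f = coeff 0 (f.coeff 0) := by
  rw [ev0, RingHom.comp_apply, Polynomial.coe_evalRingHom, ← Polynomial.coeff_zero_eq_eval_zero,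
    ← PowerSeries.coeff_zero_eq_constantCoeff_apply]

theorem ev0_FM (w w' : List (Option (Fin r))) : ev0 (FM α w w') = if w = w' then 1 else 0 := by
  by_cases h : ∃ u, w = u ++ w'
  · obtain ⟨u, rfl⟩ := h
    rw [FM_append]
    cases u with
    | nil =>
      rw [List.nil_append, if_pos rfl, RW, map_one]
    | cons o v =>
      rw [ev0_eq, c0_RW, if_neg]
      intro h
      have := congrArg List.length h
      simp at this
      omega
  · push Not at h
    rw [FM_none α h, map_zero, if_neg (fun h0 => h [] (by rw [List.nil_append, h0]))]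

theorem qu0 (W : ℕ) : QU0 (TG α 0) (AA α (W := W)) := by
  classical
  have hun : ∀ i j : WI r W, ∃ K : ℝ, 1 ≤ K ∧ ∀ k m, ‖coeff m ((FM α i.1 j.1).coeff k)‖ ≤ K ^ (m + 1) := fun i j =>
    unif (bdd_FM α i.1 j.1)
  choose K hK1 hK2 using hun
  have hK0 : ∀ i j, 0 ≤ K i j := fun i j => by linarith [hK1 i j]
  refine ⟨1, one_ne_zero, 0, ∑ i, ∑ j, K i j, Matrix.of fun i j => FM α i.1 j.1, ?_, ?_, ?_⟩
  · intro i j k m
    refine (hK2 i j k m).trans (pow_le_pow_left₀ (hK0 i j) ?_ _)
    exact (Finset.single_le_sum (fun j _ => hK0 i j) (Finset.mem_univ j)).trans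
      (Finset.single_le_sum (f := fun i => ∑ j, K i j) (fun i _ => Finset.sum_nonneg fun j _ => hK0 i j) (Finset.mem_univ i))
  · intro i j k
    have h1 := th_FM α i.1 j.1 k
    simp only [Matrix.of_apply, PowerSeries.expand_one_apply]
    have hic : ∀ P : Polynomial ℤ, ((P.map (Int.castRingHom ℂ) : Polynomial ℂ) : PowerSeries ℂ) = ic P := fun _ => rfl
    simp only [hic, Nat.cast_zero, zero_mul, sub_zero, Nat.cast_one, one_mul, pow_one]
    rw [h1]
    obtain ⟨i, hi1, hi2⟩ := i
    cases i with
    | nil =>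
      symm
      rw [Finset.sum_eq_zero, mul_zero]
      intro l _
      have : AA α (⟨[], hi1, hi2⟩ : WI r W) l = 0 := by
        rw [AA]
        refine Finset.sum_eq_zero fun o _ => ?_
        rw [if_neg]
        simp
      rw [this, ic_zero, zero_mul]
    | cons o v =>
      have hv1 : v.length ≤ W := by
        have : (o :: v).length = v.length + 1 := rfl
        omega
      have hv2 : v.getLast? ≠ some none := adm_tail (o := o) hi2
      rw [Finset.sum_eq_single (⟨v, hv1, hv2⟩ : WI r W)]
      · have h2 : AA α (⟨o :: v, hi1, hi2⟩ : WI r W) ⟨v, hv1, hv2⟩ = RR α 0 o := by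
          rw [AA, Finset.sum_eq_single o]
          · rw [if_pos rfl]
          · intro o' _ ho
            rw [if_neg]
            intro h0
            have h0' : o :: v = o' :: v := h0
            rw [List.cons.injEq] at h0'
            exact ho h0'.1.symm
          · intro h0
            exact absurd (Finset.mem_univ o) h0
        rw [h2]
        ring
      · intro l _ hl
        have : AA α (⟨o :: v, hi1, hi2⟩ : WI r W) l = 0 := by
          rw [AA]
          refine Finset.sum_eq_zero fun o' _ => ?_
          rw [if_neg]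
          intro h0
          have h0' : o :: v = o' :: l.1 := h0
          rw [List.cons.injEq] at h0'
          exact hl (Subtype.ext h0'.2.symm)
        rw [this, ic_zero, zero_mul]
      · intro h0
        exact absurd (Finset.mem_univ _) h0
  · intro h0
    have h1 := congrArg ev0 h0
    rw [map_zero, RingHom.map_det] at h1
    have h2 : ev0.mapMatrix (Matrix.of fun i j : WI r W => FM α i.1 j.1) = 1 := by
      ext i j
      rw [RingHom.mapMatrix_apply, Matrix.map_apply, Matrix.of_apply, ev0_FM, Matrix.one_apply]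
      by_cases h3 : i = j
      · rw [if_pos h3, if_pos (by rw [h3])]
      · rw [if_neg h3, if_neg (fun h4 => h3 (Subtype.ext h4))]
    rw [h2, Matrix.det_one] at h1
    exact one_ne_zero h1

theorem QU0_reindex {ι κ : Type} [Fintype ι] [DecidableEq ι] [Fintype κ] [DecidableEq κ] (e : κ ≃ ι) {T : Polynomial ℤ}
    {A : ι → ι → Polynomial ℤ} (h : QU0 T A) : QU0 T fun i j => A (e i) (e j) := by
  obtain ⟨n, hn, M, K, Φ, h1, h2, h3⟩ := h
  refine ⟨n, hn, M, K, Φ.submatrix e e, fun i j k m => h1 _ _ _ _, fun i j k => ?_, ?_⟩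
  · have := h2 (e i) (e j) k
    simp only [Matrix.submatrix_apply]
    rw [this]
    congr 1
    exact (e.sum_comp fun l => expand n hn (((A (e i) l).map (Int.castRingHom ℂ) : Polynomial ℂ) : PowerSeries ℂ) *
        (Φ l (e j)).coeff k).symm
  · rw [Matrix.det_submatrix_equiv_self]
    exact h3

end Pool.Agent.Y916.Kz
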