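import Mathlib

/-!
# Solutions of `x d/dx F + d/dL F = f` in polynomials in `L` over power series
-/

set_option autoImplicit false

open PowerSeries

namespace Pool.Agent.Y916.Kz

/-- geometric growth -/
def Bdd (f : PowerSeries ℂ) : Prop := ∃ K : ℝ, 1 ≤ K ∧ ∀ m, ‖coeff m f‖ ≤ K ^ (m + 1)

theorem Bdd.zero : Bdd 0 := ⟨1, le_rfl, fun m => by simp⟩

theorem Bdd.C (c : ℂ) : Bdd (PowerSeries.C c) := by
  refine ⟨1 + ‖c‖, by linarith [norm_nonneg c], fun m => ?_⟩
  rw [PowerSeries.coeff_C]
  have h1 : (1 : ℝ) ≤ 1 + ‖c‖ := by linarith [norm_nonneg c]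
  split_ifs with h
  · exact (by linarith : ‖c‖ ≤ 1 + ‖c‖).trans (le_self_pow₀ h1 (by omega))
  · rw [norm_zero]
    positivity

theorem Bdd.add {f g : PowerSeries ℂ} (hf : Bdd f) (hg : Bdd g) : Bdd (f + g) := by
  obtain ⟨K, hK, h1⟩ := hf
  obtain ⟨L, hL, h2⟩ := hg
  refine ⟨2 * (K * L), by nlinarith, fun m => ?_⟩
  rw [map_add]
  have h3 : K ^ (m + 1) ≤ (K * L) ^ (m + 1) := pow_le_pow_left₀ (by linarith) (by nlinarith) _
  have h4 : L ^ (m + 1) ≤ (K * L) ^ (m + 1) := pow_le_pow_left₀ (by linarith) (by nlinarith) _
  have h5 : (2 : ℝ) ≤ 2 ^ (m + 1) := le_self_pow₀ (by norm_num) (by omega)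
  have h6 : (0 : ℝ) ≤ (K * L) ^ (m + 1) := by positivity
  rw [mul_pow]
  refine (norm_add_le _ _).trans ?_
  nlinarith [h1 m, h2 m]

theorem Bdd.mul {f g : PowerSeries ℂ} (hf : Bdd f) (hg : Bdd g) : Bdd (f * g) := by
  obtain ⟨K, hK, h1⟩ := hf
  obtain ⟨L, hL, h2⟩ := hg
  refine ⟨2 * (K * L), by nlinarith, fun m => ?_⟩
  rw [coeff_mul]
  have h3 : ∀ p ∈ Finset.HasAntidiagonal.antidiagonal m, ‖coeff p.1 f * coeff p.2 g‖ ≤ (K * L) ^ (m + 1) := by
    intro p hp
    have hp' := Finset.HasAntidiagonal.mem_antidiagonal.1 hp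
    rw [norm_mul, mul_pow]
    refine mul_le_mul ((h1 _).trans (pow_le_pow_right₀ hK (by omega))) ((h2 _).trans (pow_le_pow_right₀ hL (by omega)))
      (norm_nonneg _) (by positivity)
  refine (norm_sum_le _ _).trans ((Finset.sum_le_card_nsmul _ _ _ h3).trans ?_)
  rw [Finset.Nat.card_antidiagonal, nsmul_eq_mul, mul_pow 2]
  refine mul_le_mul_of_nonneg_right ?_ (by positivity)
  exact_mod_cast (Nat.lt_two_pow_self (n := m + 1)).le

theorem Bdd.sum {ι : Type} (s : Finset ι) (f : ι → PowerSeries ℂ) (h : ∀ i ∈ s, Bdd (f i)) : Bdd (∑ i ∈ s, f i) := by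
  classical
  induction s using Finset.induction_on with
  | empty => simpa using Bdd.zero
  | insert a s ha ih =>
    rw [Finset.sum_insert ha]
    exact (h a (Finset.mem_insert_self a s)).add (ih fun i hi => h i (Finset.mem_insert_of_mem hi))

/-- the primitive -/
noncomputable def In (f : PowerSeries ℂ) : PowerSeries ℂ := PowerSeries.mk fun m => coeff m f / m

theorem Bdd.In {f : PowerSeries ℂ} (hf : Bdd f) : Bdd (In f) := by
  obtain ⟨K, hK, h1⟩ := hf
  refine ⟨K, hK, fun m => le_trans ?_ (h1 m)⟩
  rw [Kz.In, coeff_mk, norm_div]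
  rcases Nat.eq_zero_or_pos m with rfl | hm
  · simp
  · refine div_le_self (norm_nonneg _) ?_
    rw [Complex.norm_natCast]
    exact_mod_cast hm

theorem theta_In (f : PowerSeries ℂ) : X * PowerSeries.derivative ℂ (In f) = f - PowerSeries.C (coeff 0 f) := by
  ext m
  cases m with
  | zero => simp
  | succ m =>
    rw [mul_comm X, coeff_succ_mul_X, PowerSeries.coeff_derivative, In, coeff_mk, map_sub, PowerSeries.coeff_C, if_neg (by omega)]
    have : ((m : ℂ) + 1) ≠ 0 := by exact_mod_cast Nat.succ_ne_zero m
    push_cast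
    field_simp
    ring

theorem Bdd.sub {f g : PowerSeries ℂ} (hf : Bdd f) (hg : Bdd g) : Bdd (f - g) := by
  have h1 : f - g = f + PowerSeries.C (-1) * g := by
    rw [map_neg, map_one]
    ring
  rw [h1]
  exact hf.add ((Bdd.C _).mul hg)

theorem solve (n : ℕ) : ∀ f : Polynomial (PowerSeries ℂ), (∀ k, n ≤ k → f.coeff k = 0) → (∀ k, Bdd (f.coeff k)) →
    ∃ F : Polynomial (PowerSeries ℂ), (∀ k, Bdd (F.coeff k)) ∧
      (∀ k : ℕ, X * PowerSeries.derivative ℂ (F.coeff k) + ((k : PowerSeries ℂ) + 1) * F.coeff (k + 1) = f.coeff k) ∧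
      coeff 0 (F.coeff 0) = 0 := by
  induction n with
  | zero =>
    intro f h _
    refine ⟨0, fun k => by simpa using Bdd.zero, fun k => ?_, by simp⟩
    rw [h k (Nat.zero_le k)]
    simp
  | succ n ih =>
    intro f h hb
    set g := In (f.coeff n) with hg
    set c := coeff 0 (f.coeff n) with hc
    have hgB : Bdd g := (hb n).In
    have hng : Bdd ((n : PowerSeries ℂ) * g) := by
      have : (n : PowerSeries ℂ) = PowerSeries.C (n : ℂ) := by simp
      rw [this]
      exact (Bdd.C _).mul hgB
    have hg0 : coeff 0 g = 0 := by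
      rw [hg, In, coeff_mk]
      simp
    obtain ⟨F, hF1, hF2, hF3⟩ := ih (f - Polynomial.monomial n (f.coeff n) - Polynomial.monomial (n - 1) ((n : PowerSeries ℂ) * g))
      (by
        intro k hk
        rw [Polynomial.coeff_sub, Polynomial.coeff_sub, Polynomial.coeff_monomial, Polynomial.coeff_monomial]
        rcases Nat.eq_or_lt_of_le hk with h1 | h1
        · subst h1
          rw [if_pos rfl]
          rcases Nat.eq_zero_or_pos n with h2 | h2
          · subst h2
            simp
          · rw [if_neg (by omega)]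
            simp
        · rw [if_neg (by omega), if_neg (by omega), h k (by omega)]
          simp)
      (by
        intro k
        rw [Polynomial.coeff_sub, Polynomial.coeff_sub, Polynomial.coeff_monomial, Polynomial.coeff_monomial]
        refine ((hb k).sub ?_).sub ?_
        · split_ifs
          · exact hb n
          · exact Bdd.zero
        · split_ifs
          · exact hng
          · exact Bdd.zero)
    refine ⟨F + Polynomial.monomial n g + Polynomial.monomial (n + 1) (PowerSeries.C (c / ((n : ℂ) + 1))), ?_, ?_, ?_⟩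
    · intro k
      rw [Polynomial.coeff_add, Polynomial.coeff_add, Polynomial.coeff_monomial, Polynomial.coeff_monomial]
      refine ((hF1 k).add ?_).add ?_
      · split_ifs
        · exact hgB
        · exact Bdd.zero
      · split_ifs
        · exact Bdd.C _
        · exact Bdd.zero
    · intro k
      have h1 := hF2 k
      rw [Polynomial.coeff_sub, Polynomial.coeff_sub, Polynomial.coeff_monomial, Polynomial.coeff_monomial] at h1
      rw [Polynomial.coeff_add, Polynomial.coeff_add, Polynomial.coeff_add, Polynomial.coeff_add,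
        Polynomial.coeff_monomial, Polynomial.coeff_monomial, Polynomial.coeff_monomial, Polynomial.coeff_monomial]
      have hθ := theta_In (f.coeff n)
      rw [← hg, ← hc] at hθ
      have hcn : ((n : PowerSeries ℂ) + 1) * PowerSeries.C (c / ((n : ℂ) + 1)) = PowerSeries.C c := by
        have : ((n : PowerSeries ℂ) + 1) = PowerSeries.C ((n : ℂ) + 1) := by simp
        rw [this, ← map_mul]
        congr 1
        have : ((n : ℂ) + 1) ≠ 0 := by exact_mod_cast Nat.succ_ne_zero n
        field_simp
      by_cases hk : n = k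
      · subst hk
        rw [if_pos rfl, if_neg (by omega), if_neg (by omega), if_pos rfl]
        rw [if_pos rfl] at h1
        have h2 : (if n - 1 = n then (n : PowerSeries ℂ) * g else 0) = 0 := by
          split_ifs with h3
          · have : n = 0 := by omega
            rw [this]
            simp
          · rfl
        rw [h2] at h1
        simp only [map_add, map_zero, add_zero, mul_add]
        linear_combination h1 + hθ + hcn
      · rw [if_neg hk] at h1 ⊢
        by_cases hk2 : n = k + 1
        · subst hk2
          rw [if_neg (by omega), if_pos rfl, if_neg (by omega)]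
          rw [Nat.add_sub_cancel, if_pos rfl] at h1
          simp only [map_add, map_zero, add_zero, mul_add]
          push_cast at h1
          linear_combination h1
        · have h3 : ¬ (n - 1 = k ∧ n ≠ 0) := by omega
          have h2 : (if n - 1 = k then (n : PowerSeries ℂ) * g else 0) = 0 := by
            split_ifs with h4
            · have : n = 0 := by
                by_contra h5
                exact h3 ⟨h4, h5⟩
              rw [this]
              simp
            · rfl
          rw [h2] at h1
          rw [if_neg hk2, if_neg (show ¬ (n + 1 = k + 1) by omega)]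
          have h5 : (if n + 1 = k then PowerSeries.C (c / ((n : ℂ) + 1)) else 0 : PowerSeries ℂ) =
              PowerSeries.C (if n + 1 = k then c / ((n : ℂ) + 1) else 0) := by
            split_ifs <;> simp
          have h6 : PowerSeries.derivative ℂ (PowerSeries.C (if n + 1 = k then c / ((n : ℂ) + 1) else 0)) = 0 := by
            simp
          rw [h5]
          simp only [map_add, map_zero, add_zero, mul_add, h6, mul_zero]
          linear_combination h1
    · rw [Polynomial.coeff_add, Polynomial.coeff_add, Polynomial.coeff_monomial, Polynomial.coeff_monomial, map_add, map_add,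
        hF3, if_neg (Nat.succ_ne_zero n), map_zero, zero_add, add_zero]
      split_ifs
      · exact hg0
      · exact map_zero _

open Classical in
/-- a solution -/
noncomputable def sol (f : Polynomial (PowerSeries ℂ)) : Polynomial (PowerSeries ℂ) :=
  if h : ∀ k, Bdd (f.coeff k) then
    (solve (f.natDegree + 1) f (fun k hk => Polynomial.coeff_eq_zero_of_natDegree_lt (by omega)) h).choose else 0

theorem sol_spec {f : Polynomial (PowerSeries ℂ)} (h : ∀ k, Bdd (f.coeff k)) : (∀ k, Bdd ((sol f).coeff k)) ∧
    (∀ k : ℕ, X * PowerSeries.derivative ℂ ((sol f).coeff k) + ((k : PowerSeries ℂ) + 1) * (sol f).coeff (k + 1) =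
      f.coeff k) ∧ coeff 0 ((sol f).coeff 0) = 0 := by
  rw [sol, dif_pos h]
  exact (solve (f.natDegree + 1) f (fun k hk => Polynomial.coeff_eq_zero_of_natDegree_lt (by omega)) h).choose_spec

end Pool.Agent.Y916.Kz
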