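import Pool.Agent.Y916.Kz.Qu2
import Pool.Agent.Y916.Af.Gs3

/-!
# The family of the hyperlogarithms
-/

set_option autoImplicit false

open PowerSeries Pool.Agent.Y113 Pool.Agent.Y119.ML Pool.Agent.Y120.GH Pool.Agent.Y916.Af

namespace Pool.Agent.Y916.Kz

variable {r : ℕ} (α : Fin r → ℤ)

theorem lg_zero : lg 0 = 0 := by
  ext m
  rw [lg, coeff_mk, map_zero]
  cases m with
  | zero => simp
  | succ m => simp

theorem gsys (W : ℕ) {κ : Type} [Fintype κ] (e : κ ≃ WI r W) :
    ∃ (q : ℕ) (C : ℝ), GSys q C (TG α 0) fun i => LL α 0 (e i).1 := by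
  classical
  obtain ⟨E, hE⟩ := gsys_ff α W
  have h := hE 0
  have hff : ∀ w : WI r W, ff α 0 ((0, w) : JJ r W) = LL α 0 w.1 := by
    intro w
    rw [ff]
    simp
  have hf0 : ∀ (n : Fin (W + 1)) (w : WI r W), n ≠ 0 → ff α 0 ((n, w) : JJ r W) = 0 := by
    intro n w hn
    rw [ff, lg_zero, zero_pow (by
      intro h0
      exact hn (Fin.ext h0)), zero_mul]
  refine ⟨r + 2, _, h.one_le, h.degT, h.sizeT, fun i m => ?_, fun m => ?_, fun k => ?_⟩
  · rw [← hff]
    exact h.size _ m
  · obtain ⟨d, h1, h2, h3⟩ := h.den m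
    refine ⟨d, h1, h2, fun i j hj => ?_⟩
    rw [← hff]
    exact h3 _ j hj
  · obtain ⟨g, h1, h2, h3⟩ := h.der k
    refine ⟨g, h1, h2, fun s hs => ?_⟩
    obtain ⟨G, h4, h5, h6⟩ := h3 s hs
    refine ⟨fun i j => G (0, e i) (0, e j), fun i j => h4 _ _, fun i j l => h5 _ _ l, fun i => ?_⟩
    rw [← hff, h6, Fintype.sum_prod_type, Finset.sum_eq_single 0]
    · rw [← e.sum_comp]
      refine Finset.sum_congr rfl fun j _ => ?_
      rw [hff]
    · intro n _ hn
      refine Finset.sum_eq_zero fun w _ => ?_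
      rw [hf0 n w hn, mul_zero]
    · intro h0
      exact absurd (Finset.mem_univ _) h0

theorem TG_ne : TG α 0 ≠ 0 := by
  rw [TG]
  refine mul_ne_zero Polynomial.X_ne_zero (mul_ne_zero ?_ ?_)
  · simp
  · refine Finset.prod_ne_zero_iff.2 fun a _ h0 => ?_
    have := congrArg (fun P : Polynomial ℤ => P.coeff 0) h0
    simp at this

theorem ode (W : ℕ) (w : WI r W) : ps (TG α 0) * d⁄dX ℚ (LL α 0 w.1) = ∑ w' : WI r W, ps (AA α w w') * LL α 0 w'.1 := by
  classical
  obtain ⟨w, hw1, hw2⟩ := w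
  cases w with
  | nil =>
    rw [Finset.sum_eq_zero]
    · show _ * d⁄dX ℚ (1 : ℚ⟦X⟧) = 0
      simp
    · intro l _
      have : AA α (⟨[], hw1, hw2⟩ : WI r W) l = 0 := by
        rw [AA]
        refine Finset.sum_eq_zero fun o _ => ?_
        rw [if_neg]
        simp
      rw [this, ps_zero, zero_mul]
  | cons o v =>
    have hv1 : v.length ≤ W := by
      have : (o :: v).length = v.length + 1 := rfl
      omega
    have hv2 : v.getLast? ≠ some none := adm_tail (o := o) hw2
    rw [Finset.sum_eq_single (⟨v, hv1, hv2⟩ : WI r W)]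
    · have h2 : AA α (⟨o :: v, hw1, hw2⟩ : WI r W) ⟨v, hv1, hv2⟩ = RR α 0 o := by
        rw [AA, Finset.sum_eq_single o]
        · rw [if_pos rfl]
        · intro o' _ ho
          rw [if_neg]
          intro h0
          have h0' : o :: v = o' :: v := h0
          rw [List.cons.injEq] at h0'
          exact ho h0'.1.symm
        · intro h0
          exact absurd (Finset.mem_univ o) h0
      rw [h2]
      exact TG_LL α 0 hw2
    · intro l _ hl
      have : AA α (⟨o :: v, hw1, hw2⟩ : WI r W) l = 0 := by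
        rw [AA]
        refine Finset.sum_eq_zero fun o' _ => ?_
        rw [if_neg]
        intro h0
        have h0' : o :: v = o' :: l.1 := h0
        rw [List.cons.injEq] at h0'
        exact hl (Subtype.ext h0'.2.symm)
      rw [this, ps_zero, zero_mul]
    · intro h0
      exact absurd (Finset.mem_univ _) h0

theorem gfs (W N : ℕ) (e : Fin N ≃ WI r W) : GFs (TG α 0) (fun i j => AA α (e i) (e j)) fun i => LL α 0 (e i).1 := by
  obtain ⟨q, C, h⟩ := gsys α W e
  refine ⟨TG_ne α, fun i => ?_, ⟨C, h.size⟩, ⟨q, C, h⟩, ?_⟩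
  · rw [ode]
    exact (e.sum_comp fun w' => ps (AA α (e i) w') * LL α 0 w'.1).symm
  · classical
    exact QU0_reindex e (qu0 α W)

theorem nrh (W N : ℕ) (e : Fin N ≃ WI r W) : NRh fun i => LL α 0 (e i).1 := by
  have h := gfs α W N e
  exact Pool.Agent.Y916P2.nrs (Pool.Agent.Y916P1.t_fams h) h.hsize

end Pool.Agent.Y916.Kz
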