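import Pool.Agent.Y916.Kz.Fin

/-!
# The values of the hyperlogarithms in windows of algebraic points
-/

set_option autoImplicit false

open Module PowerSeries Pool.Agent.Y119.ML Pool.Agent.Y916.Al Pool.Agent.Y916.Af Pool.Agent.Y916.Om

namespace Pool.Agent.Y916.Kz

theorem winI {r : ℕ} {h : Fin r → ℚ⟦X⟧} (hnr : NRh h) {I : Finset (Fin r)} (hI : Free h I) :
    ∃ G0 : ℕ, 1 ≤ G0 ∧ ∀ G : ℕ, G0 ≤ G → ∀ (p : ℕ) (Ω : Fin p → ℂ) (q k m d δ A : ℕ), ∃ E : ℕ, ∀ (H : ℕ) (ξ : ℂ),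
      ((H : ℝ) + 2) ^ E ≤ ‖ξ‖ → Ht m A ξ → ∀ w : Fin q → ℂ, ∃ S : Finset ℕ,
      (S.card : Cardinal) ≤ Algebra.trdeg ℚ (IntermediateField.adjoin ℚ (insert (2 * Real.pi * Complex.I) (Set.range Ω))) +
        q + 1 ∧
      ∀ u : Fin k → ℕ, Function.Injective u → (∀ j, 1 ≤ u j ∧ u j ≤ H ∧ u j ∉ S) →
      ∀ ℓ : Fin k → ℂ, (∀ j, Complex.exp (ℓ j) = ξ - ((G * u j : ℕ) : ℂ)) →
      ∀ K : IntermediateField ℚ ℂ, FiniteDimensional ℚ K → finrank ℚ K ≤ d →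
      ∀ P : MvPolynomial ((Fin p ⊕ Fin q) ⊕ Fin k × Option I) K, P.totalDegree ≤ δ →
      MvPolynomial.aeval (Sum.elim (Sum.elim Ω w) fun x : Fin k × Option I =>
        x.2.elim (ℓ x.1) fun i => evc (1 / (ξ - ((G * u x.1 : ℕ) : ℂ))) (h i)) P = 0 →
      ∀ y : Fin k × Option I → ℂ, MvPolynomial.aeval (Sum.elim (Sum.elim Ω w) y) P = 0 := by
  classical
  obtain ⟨G0, hG01, hval⟩ := hnr
  refine ⟨G0, hG01, fun G hG p Ω q k m d δ A => ?_⟩
  have hG1 : 1 ≤ G := hG01.trans hG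
  have hval := hval G hG I hI
  set B : ℕ := 0 with hBdef
  set u₀ : Fin p ⊕ Unit → ℂ := Sum.elim Ω fun _ => 2 * Real.pi * Complex.I with hu₀
  obtain ⟨E₁, hE₁⟩ := Sl.windowU (va G h I) (inpA_va hG1 hval) (xa G h I) (fun _ => True) u₀ m 1 1
    (linkU_va h hG1 I m u₀ (Sum.inr ()) rfl) k d δ q (2 * (2 * A + 3))
  refine ⟨E₁ + 2 * G + B + 3, ?_⟩
  intro H ξ hξ hHt w
  have hH2 : (2 : ℝ) ≤ (H : ℝ) + 2 := by linarith [(Nat.cast_nonneg H : (0 : ℝ) ≤ H)]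
  have hH1 : (1 : ℝ) ≤ (H : ℝ) + 2 := by linarith
  have hGR : (1 : ℝ) ≤ G := by exact_mod_cast hG1
  have h2n : ∀ n : ℕ, (n : ℝ) ≤ ((H : ℝ) + 2) ^ n := fun n => by
    refine le_trans ?_ (pow_le_pow_left₀ (by norm_num) hH2 n)
    exact_mod_cast (Nat.lt_two_pow_self (n := n)).le
  have hGB : (G : ℝ) * (H + 2) + B ≤ ‖ξ‖ := by
    refine le_trans ?_ ((pow_le_pow_right₀ hH1 (by omega : G + 1 + B + 1 ≤ E₁ + 2 * G + B + 3)).trans hξ)
    have h1 := h2n G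
    have h2 := h2n B
    have h3 : (1 : ℝ) ≤ ((H : ℝ) + 2) ^ (G + 1) := one_le_pow₀ hH1
    have h4 : (1 : ℝ) ≤ ((H : ℝ) + 2) ^ B := one_le_pow₀ hH1
    have h5 : (G : ℝ) * (H + 2) ≤ ((H : ℝ) + 2) ^ (G + 1) := by
      rw [pow_succ]
      exact mul_le_mul_of_nonneg_right h1 (by linarith)
    have h6 : (B : ℝ) ≤ ((H : ℝ) + 2) ^ B := h2
    calc (G : ℝ) * (H + 2) + B ≤ ((H : ℝ) + 2) ^ (G + 1) + ((H : ℝ) + 2) ^ B := add_le_add h5 h6
      _ ≤ ((H : ℝ) + 2) ^ (G + 1) * ((H : ℝ) + 2) ^ B * 2 := by nlinarith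
      _ ≤ ((H : ℝ) + 2) ^ (G + 1) * ((H : ℝ) + 2) ^ B * ((H : ℝ) + 2) :=
          mul_le_mul_of_nonneg_left hH2 (by positivity)
      _ = _ := by rw [← pow_add, ← pow_succ]
  have hG2 : (G : ℝ) * G ≤ ‖ξ‖ := by
    refine le_trans ?_ ((pow_le_pow_right₀ hH1 (by omega : G + G ≤ E₁ + 2 * G + B + 3)).trans hξ)
    rw [pow_add]
    exact mul_le_mul (h2n G) (h2n G) (by linarith) (by positivity)
  have hGE : (G : ℝ) * ((H : ℝ) + 2) ^ E₁ ≤ ‖ξ‖ := by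
    refine le_trans ?_ ((pow_le_pow_right₀ hH1 (by omega : G + E₁ ≤ E₁ + 2 * G + B + 3)).trans hξ)
    rw [pow_add]
    exact mul_le_mul_of_nonneg_right (h2n G) (by positivity)
  obtain ⟨p₀, hp0, hpd, hpY, hp⟩ := hHt
  obtain ⟨K₁, ξ₁, h1, h2, h3, h4⟩ := pt_root hp0 hpd hpY hp
  have hξ2 : (2 : ℝ) ≤ ‖ξ‖ := by nlinarith [(Nat.cast_nonneg B : (0 : ℝ) ≤ B), (Nat.cast_nonneg H : (0 : ℝ) ≤ H)]
  have hn : ‖((-ξ₁ / G : K₁) : ℂ)‖ = ‖ξ‖ / G := by
    push_cast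
    rw [h3, norm_div, norm_neg, Complex.norm_natCast]
  obtain ⟨S, hS, hwin⟩ := hE₁ H K₁ (-ξ₁ / G) (G * (‖ξ‖ ^ A * (‖ξ‖ ^ A + 2))) h1 h2 (pt_div h4 hG1) (by
    rw [hn, le_div_iff₀ (by linarith), mul_comm]
    exact hGE) (by
    rw [hn]
    have h5 : ‖ξ‖ ≤ (‖ξ‖ / G) ^ 2 := by
      rw [div_pow, le_div_iff₀ (by positivity)]
      nlinarith
    have h6 : (G : ℝ) ≤ ‖ξ‖ := by nlinarith
    have h7 : (1 : ℝ) ≤ ‖ξ‖ ^ A := one_le_pow₀ (by linarith)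
    have h8 : ‖ξ‖ ^ A + 2 ≤ ‖ξ‖ ^ A * ‖ξ‖ ^ 2 := by
      have h9 : (4 : ℝ) ≤ ‖ξ‖ ^ 2 := by nlinarith
      nlinarith
    calc (G : ℝ) * (‖ξ‖ ^ A * (‖ξ‖ ^ A + 2)) ≤ ‖ξ‖ * (‖ξ‖ ^ A * (‖ξ‖ ^ A * ‖ξ‖ ^ 2)) :=
          mul_le_mul h6 (mul_le_mul_of_nonneg_left h8 (by positivity)) (by positivity) (by positivity)
      _ = ‖ξ‖ ^ (2 * A + 3) := by ring
      _ ≤ ((‖ξ‖ / G) ^ 2) ^ (2 * A + 3) := pow_le_pow_left₀ (by positivity) h5 _
      _ = _ := by rw [← pow_mul]) w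
  refine ⟨S, ?_, ?_⟩
  · refine hS.trans (le_of_eq ?_)
    have h5 : Set.range u₀ = insert (2 * Real.pi * Complex.I) (Set.range Ω) := by
      rw [hu₀, Set.Sum.elim_range]
      ext z
      simp
    rw [h5]
    ring
  intro u hu hub ℓ hℓ K hKf hKd P hPd hP0 y
  set α : Fin k → ℂ := fun j => ξ - ((G * u j : ℕ) : ℂ) with hα
  have hαB : ∀ j, (B : ℝ) < ‖α j‖ := by
    intro j
    have h5 := norm_sub_norm_le ξ ((G * u j : ℕ) : ℂ)
    rw [Complex.norm_natCast] at h5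
    have h6 : ((G * u j : ℕ) : ℝ) ≤ G * H := by
      push_cast
      exact mul_le_mul_of_nonneg_left (by exact_mod_cast (hub j).2.1) (by linarith)
    show (B : ℝ) < ‖ξ - ((G * u j : ℕ) : ℂ)‖
    nlinarith
  set ρ' : (Fin p ⊕ Fin q) ⊕ Fin k × Option I → (Fin q ⊕ (Fin p ⊕ Unit)) ⊕ Fin k × Option I :=
    Sum.map (fun i => i.elim (fun a => Sum.inr (Sum.inl a)) Sum.inl) id with hρ'
  have hcc : ∀ i : Fin p ⊕ Fin q, Sum.elim w u₀ (i.elim (fun a => Sum.inr (Sum.inl a)) Sum.inl) = Sum.elim Ω w i := by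
    rintro (a | a) <;> rfl
  have h9 := hwin u hu (fun i => ⟨(hub i).1, (hub i).2.1, (hub i).2.2, trivial⟩) K hKf hKd
    (fun x => x.2.elim (ℓ x.1) fun i => evc (1 / (ξ - ((G * u x.1 : ℕ) : ℂ))) (h i)) ?_
    (MvPolynomial.rename ρ' P) ((MvPolynomial.totalDegree_rename_le _ _).trans hPd) ?_
  · rw [MvPolynomial.aeval_rename] at h9
    have h10 := congrArg (MvPolynomial.aeval (R := ℂ) y) h9
    rw [map_zero] at h10
    rw [← h10]
    have h11 : (MvPolynomial.aeval (Sum.elim (Sum.elim Ω w) y) : MvPolynomial _ K →ₐ[K] ℂ) =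
        ((MvPolynomial.aeval (R := ℂ) y).restrictScalars K).comp (MvPolynomial.aeval
          (Sum.elim (fun j => MvPolynomial.C (Sum.elim w u₀ j)) MvPolynomial.X ∘ ρ')) := by
      refine MvPolynomial.algHom_ext fun c => ?_
      rcases c with c | c
      · have h12 : (Sum.elim (fun j => MvPolynomial.C (Sum.elim w u₀ j)) MvPolynomial.X ∘ ρ') (Sum.inl c) =
            (MvPolynomial.C (Sum.elim Ω w c) : MvPolynomial (Fin k × Option I) ℂ) := by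
          show MvPolynomial.C (Sum.elim w u₀ (c.elim (fun a => Sum.inr (Sum.inl a)) Sum.inl)) = _
          rw [hcc]
        rw [AlgHom.comp_apply, MvPolynomial.aeval_X, MvPolynomial.aeval_X, h12]
        show _ = MvPolynomial.aeval y (MvPolynomial.C (Sum.elim Ω w c))
        rw [MvPolynomial.aeval_C]
        rfl
      · rw [AlgHom.comp_apply, MvPolynomial.aeval_X, MvPolynomial.aeval_X]
        show y c = MvPolynomial.aeval y (MvPolynomial.X c)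
        rw [MvPolynomial.aeval_X]
    rw [h11]
    rfl
  · rintro ⟨i, s⟩
    refine ⟨1, one_ne_zero, ?_⟩
    have h10 : -(G : ℂ) * (((-ξ₁ / G : K₁) : ℂ) + (u i : ℂ)) = α i := by
      have hG0 : (G : ℂ) ≠ 0 := by exact_mod_cast (by omega : G ≠ 0)
      rw [hα]
      push_cast
      rw [h3]
      field_simp
      ring
    rcases s with _ | s
    · show ℓ i - (((1 : K)) : ℂ) * Complex.log (-(G : ℂ) * (((-ξ₁ / G : K₁) : ℂ) + (u i : ℂ))) ∈ _
      rw [h10, show (((1 : K)) : ℂ) = 1 from rfl, one_mul]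
      have hα0 : α i ≠ 0 := by
        rw [← norm_pos_iff]
        exact lt_of_le_of_lt (Nat.cast_nonneg B) (hαB i)
      obtain ⟨n, hn⟩ := Complex.exp_eq_exp_iff_exists_int.1 ((hℓ i).trans (Complex.exp_log hα0).symm)
      have h5 : ℓ i - Complex.log (α i) = (n : K) • (2 * Real.pi * Complex.I : ℂ) := by
        rw [hn, Algebra.smul_def]
        simp
      rw [h5]
      exact Submodule.smul_mem _ _ (Submodule.subset_span (Set.mem_insert_of_mem _ ⟨Sum.inr (Sum.inr ()), rfl⟩))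
    · show evc (1 / α i) (h s) - (((1 : K)) : ℂ) *
        evc (1 / (-(G : ℂ) * (((-ξ₁ / G : K₁) : ℂ) + (u i : ℂ)))) (h s) ∈ _
      rw [h10, show (((1 : K)) : ℂ) = 1 from rfl, one_mul, sub_self]
      exact Submodule.zero_mem _
  · rw [MvPolynomial.aeval_rename, ← hP0]
    congr 2
    funext x
    rcases x with c | x
    · exact hcc c
    · rfl

/-- windows for the hyperlogarithms -/
theorem winK {r : ℕ} (α : Fin r → ℤ) {W : ℕ} (I : Finset (WI r W))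
    (hI : AlgebraicIndependent (Polynomial ℚ) (fun i : I => LL α 0 i.1.1)) :
    ∃ G0 : ℕ, 1 ≤ G0 ∧ ∀ G : ℕ, G0 ≤ G → ∀ (p : ℕ) (Ω : Fin p → ℂ) (q k m d δ A : ℕ), ∃ E : ℕ, ∀ (H : ℕ) (ξ : ℂ),
      ((H : ℝ) + 2) ^ E ≤ ‖ξ‖ → Ht m A ξ → ∀ w : Fin q → ℂ, ∃ S : Finset ℕ,
      (S.card : Cardinal) ≤ Algebra.trdeg ℚ (IntermediateField.adjoin ℚ (insert (2 * Real.pi * Complex.I) (Set.range Ω))) +
        q + 1 ∧
      ∀ u : Fin k → ℕ, Function.Injective u → (∀ j, 1 ≤ u j ∧ u j ≤ H ∧ u j ∉ S) →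
      ∀ ℓ : Fin k → ℂ, (∀ j, Complex.exp (ℓ j) = ξ - ((G * u j : ℕ) : ℂ)) →
      ∀ K : IntermediateField ℚ ℂ, FiniteDimensional ℚ K → finrank ℚ K ≤ d →
      ∀ P : MvPolynomial ((Fin p ⊕ Fin q) ⊕ Fin k × Option I) K, P.totalDegree ≤ δ →
      MvPolynomial.aeval (Sum.elim (Sum.elim Ω w) fun x : Fin k × Option I =>
        x.2.elim (ℓ x.1) fun i => evc (1 / (ξ - ((G * u x.1 : ℕ) : ℂ))) (LL α 0 i.1.1)) P = 0 →
      ∀ y : Fin k × Option I → ℂ, MvPolynomial.aeval (Sum.elim (Sum.elim Ω w) y) P = 0 := by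
  classical
  set N := Fintype.card (WI r W) with hN
  let e : Fin N ≃ WI r W := (Fintype.equivFin _).symm
  set h : Fin N → ℚ⟦X⟧ := fun i => LL α 0 (e i).1 with hh
  set I₀ : Finset (Fin N) := I.map e.symm.toEmbedding with hI₀
  have hind : AlgebraicIndependent (Polynomial ℚ) (fun i : I₀ => h i) := by
    let ψ : I₀ → I := fun i => ⟨e i.1, by
      obtain ⟨j, hj, hj2⟩ := Finset.mem_map.1 i.2
      rw [← hj2]
      simpa using hj⟩
    have hψ : Function.Injective ψ := by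
      intro a b hab
      have : e a.1 = e b.1 := congrArg Subtype.val hab
      exact Subtype.ext (e.injective this)
    exact hI.comp ψ hψ
  obtain ⟨J, hIJ, hJ⟩ := free_ge h I₀ hind
  obtain ⟨G0, hG01, hwin⟩ := winI (nrh α W N e) hJ
  refine ⟨G0, hG01, fun G hG p Ω q k m d δ A => ?_⟩
  obtain ⟨E, hE⟩ := hwin G hG p Ω q k m d δ A
  refine ⟨E, fun H ξ hξ hHt w => ?_⟩
  obtain ⟨S, hS, h2⟩ := hE H ξ hξ hHt w
  refine ⟨S, hS, fun u hu hub ℓ hℓ K hKf hKd P hPd hP0 y => ?_⟩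
  let θ : Option I → Option J := fun o => o.map fun i => ⟨e.symm i.1, hIJ (Finset.mem_map_of_mem _ i.2)⟩
  have hθ : Function.Injective θ := by
    refine Option.map_injective fun a b hab => ?_
    have : e.symm a.1 = e.symm b.1 := congrArg Subtype.val hab
    exact Subtype.ext (e.symm.injective this)
  let φ : Fin k × Option I → Fin k × Option J := fun p => (p.1, θ p.2)
  have hφ : Function.Injective φ := by
    intro a b hab
    simp only [φ, Prod.mk.injEq] at hab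
    exact Prod.ext hab.1 (hθ hab.2)
  have h3 := h2 u hu hub ℓ hℓ K hKf hKd (MvPolynomial.rename (Sum.map id φ) P)
    ((MvPolynomial.totalDegree_rename_le _ _).trans hPd) (by
      rw [MvPolynomial.aeval_rename, ← hP0]
      congr 2
      funext x
      rcases x with c | ⟨i, o⟩
      · rfl
      · cases o with
        | none => rfl
        | some j =>
          show evc (1 / (ξ - ((G * u i : ℕ) : ℂ))) (LL α 0 (e (e.symm j.1)).1) =
            evc (1 / (ξ - ((G * u i : ℕ) : ℂ))) (LL α 0 j.1.1)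
          rw [Equiv.apply_symm_apply]) (Function.extend φ y 0)
  rw [MvPolynomial.aeval_rename] at h3
  rw [← h3]
  congr 2
  funext x
  rcases x with c | x
  · rfl
  · exact (hφ.extend_apply y 0 x).symm

end Pool.Agent.Y916.Kz
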